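import Pool.Agent.H75.L.W662.CB.Stmts

set_option autoImplicit false

open MeasureTheory Filter Topology Complex
open scoped InnerProductSpace ENNReal

namespace Pool.Agent.W662.CB

noncomputable section

/-- `A` is a factor -/
def IsFac {K : Type} [NormedAddCommGroup K] [InnerProductSpace ℂ K] [CompleteSpace K]
    (A : VonNeumannAlgebra K) : Prop :=
  ∀ Z : K →L[ℂ] K, Z ∈ A → (∀ S : K →L[ℂ] K, S ∈ A → S * Z = Z * S) → ∃ c : ℂ, Z = c • 1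

/-- `S ∈ A' ∩ B` -/
def Rel {K : Type} [NormedAddCommGroup K] [InnerProductSpace ℂ K] [CompleteSpace K]
    (A B : VonNeumannAlgebra K) (S : K →L[ℂ] K) : Prop :=
  S ∈ B ∧ ∀ Y : K →L[ℂ] K, Y ∈ A → Y * S = S * Y

/-- `ζ` is a trace vector for the corner `pBp` -/
structure TrV {K : Type} [NormedAddCommGroup K] [InnerProductSpace ℂ K] [CompleteSpace K]
    (B : VonNeumannAlgebra K) (p : K →L[ℂ] K) (ζ : K) : Prop where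
  fix : p ζ = ζ
  tr : ∀ Z : K →L[ℂ] K, Z ∈ B → p * Z * p = Z → ‖Z ζ‖ = ‖star Z ζ‖
  sep : ∀ Z : K →L[ℂ] K, Z ∈ B → p * Z * p = Z → Z ζ = 0 → Z = 0

/-- extension from the corner -/
def S_Q1 : Prop := ∀ (K : Type) [NormedAddCommGroup K] [InnerProductSpace ℂ K] [CompleteSpace K]
  (A B : VonNeumannAlgebra K), (∀ x : K →L[ℂ] K, x ∈ A → x ∈ B) →
  ∀ p : K →L[ℂ] K, p ∈ A → p * p = p → star p = p → ∀ Z : K →L[ℂ] K, Z ∈ B → p * Z * p = Z →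
  (∀ S : K →L[ℂ] K, S ∈ A → p * S * p = S → S * Z = Z * S) →
  ∃ S0 : K →L[ℂ] K, Rel A B S0 ∧ S0 * p = Z ∧ ‖S0‖ ≤ ‖Z‖

/-- averaging over the unitaries of the corner, with the norm bound -/
def S_Q2 : Prop := ∀ (K : Type) [NormedAddCommGroup K] [InnerProductSpace ℂ K] [CompleteSpace K]
  (A B : VonNeumannAlgebra K), (∀ x : K →L[ℂ] K, x ∈ A → x ∈ B) →
  ∀ p : K →L[ℂ] K, p ∈ A → p * p = p → star p = p → ∀ ζ : K, TrV B p ζ →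
  ∀ (Z : K →L[ℂ] K) (r : ℝ), Z ∈ B → p * Z * p = Z →
  (∀ u : K →L[ℂ] K, u ∈ A → star u * u = p → u * star u = p → ‖(u * Z - Z * u) ζ‖ ≤ r) →
  ∃ Z0 : K →L[ℂ] K, Z0 ∈ B ∧ p * Z0 * p = Z0 ∧ ‖(Z - Z0) ζ‖ ≤ r ∧ ‖Z0‖ ≤ ‖Z‖ ∧
    ∀ u : K →L[ℂ] K, u ∈ A → star u * u = p → u * star u = p → u * Z0 = Z0 * u

/-- uniqueness of the trace: `‖S q ζ‖ / ‖q ζ‖` does not depend on `q` -/
def S_Q3 : Prop := ∀ (K : Type) [NormedAddCommGroup K] [InnerProductSpace ℂ K] [CompleteSpace K]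
  (A B : VonNeumannAlgebra K), (∀ x : K →L[ℂ] K, x ∈ A → x ∈ B) → IsFac A →
  ∀ p : K →L[ℂ] K, p ∈ A → p * p = p → star p = p → ∀ ζ : K, TrV B p ζ →
  ∀ S : K →L[ℂ] K, Rel A B S → ∀ q : K →L[ℂ] K, q ∈ A → q * q = q → star q = q → p * q = q →
    ‖S (q ζ)‖ * ‖ζ‖ = ‖S ζ‖ * ‖q ζ‖

/-- completeness and faithfulness of `A' ∩ B` at a trace vector -/
def S_Q4 : Prop := ∀ (K : Type) [NormedAddCommGroup K] [InnerProductSpace ℂ K] [CompleteSpace K]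
  (A B : VonNeumannAlgebra K), (∀ x : K →L[ℂ] K, x ∈ A → x ∈ B) → IsFac A →
  ∀ p : K →L[ℂ] K, p ∈ A → p * p = p → star p = p → ∀ ζ : K, TrV B p ζ → ζ ≠ 0 →
  (∀ S : K →L[ℂ] K, Rel A B S → S ζ = 0 → S = 0) ∧
  ∀ (S : ℕ → K →L[ℂ] K) (C : ℝ), (∀ n, Rel A B (S n)) → (∀ n, ‖S n‖ ≤ C) →
    CauchySeq (fun n => S n ζ) →
    ∃ S0 : K →L[ℂ] K, Rel A B S0 ∧ ‖S0‖ ≤ C ∧ Tendsto (fun n => S n ζ) atTop (𝓝 (S0 ζ))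

/-- a window `(p, ζ)` divided into `m` translates of a window `(p', ζ')` -/
structure Grid {K : Type} [NormedAddCommGroup K] [InnerProductSpace ℂ K] [CompleteSpace K]
    (A B : VonNeumannAlgebra K) (p p' : K →L[ℂ] K) (ζ ζ' : K) (m : ℕ)
    (Θ : ℕ → K →L[ℂ] K) (c : ℕ → ℝ) : Prop where
  pos : 0 < m
  zero : Θ 0 = 1
  add : ∀ i j : ℕ, Θ (i + j) = Θ i * Θ j
  un1 : ∀ j : ℕ, star (Θ j) * Θ j = 1
  un2 : ∀ j : ℕ, Θ j * star (Θ j) = 1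
  mem : ∀ (j : ℕ) (S : K →L[ℂ] K), Rel A B S → Rel A B (Θ j * S * star (Θ j))
  q_mem : ∀ j : ℕ, Θ j * p' * star (Θ j) ∈ A
  q_le : ∀ j : ℕ, j < m → p * (Θ j * p' * star (Θ j)) = Θ j * p' * star (Θ j)
  q_orth : ∀ i j : ℕ, i < m → j < m → i ≠ j →
    (Θ i * p' * star (Θ i)) * (Θ j * p' * star (Θ j)) = 0
  sum : ζ = ∑ j ∈ Finset.range m, (Θ j * p' * star (Θ j)) ζ
  c_ge : ∀ j : ℕ, j < m → 1 ≤ 2 * Real.sqrt m * c j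
  q_ζ : ∀ j : ℕ, j < m → (Θ j * p' * star (Θ j)) ζ = ((c j : ℝ) : ℂ) • Θ j ζ'
  n1 : 1 ≤ 2 * ‖ζ‖
  n2 : ‖ζ‖ ≤ 2
  n1' : 1 ≤ 2 * ‖ζ'‖
  n2' : ‖ζ'‖ ≤ 2

/-- the comparison of two scales -/
def S_Q5 : Prop := ∀ (K : Type) [NormedAddCommGroup K] [InnerProductSpace ℂ K] [CompleteSpace K]
  (A B : VonNeumannAlgebra K), (∀ x : K →L[ℂ] K, x ∈ A → x ∈ B) →
  ∀ p p' : K →L[ℂ] K, p ∈ A → p * p = p → star p = p → p' ∈ A → p' * p' = p' → star p' = p' →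
  ∀ (ζ ζ' : K) (m : ℕ) (Θ : ℕ → K →L[ℂ] K) (c : ℕ → ℝ), Grid A B p p' ζ ζ' m Θ c →
  p' ζ' = ζ' →
  (∀ S : K →L[ℂ] K, Rel A B S → ∀ q : K →L[ℂ] K, q ∈ A → q * q = q → star q = q → p * q = q →
    ‖S (q ζ)‖ * ‖ζ‖ = ‖S ζ‖ * ‖q ζ‖) →
  ∀ (X S S' : K →L[ℂ] K) (ρ ρ' : ℝ), (∀ j : ℕ, Θ j * X = X * Θ j) → p' * X = X * p' →
  Rel A B S → Rel A B S' → ‖(S - X) ζ‖ ≤ ρ → ‖(S' - X) ζ'‖ ≤ ρ' →
  ‖(S - S') ζ‖ ≤ 12 * (4 * ρ + ρ')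

/-- the Fourier transform on `L²(ℝ; H)`, both intertwining relations -/
def S_Q6 : Prop := ∀ (H : Type) [NormedAddCommGroup H] [InnerProductSpace ℂ H] [CompleteSpace H],
  ∃ Φ : LR H ≃ₗᵢ[ℂ] LR H,
  (∀ (y : H →L[ℂ] H) (S : LR H →L[ℂ] LR H), IsConst y S → ∀ f : LR H, Φ (S f) = S (Φ f)) ∧
  (∀ (t : ℝ) (S S' : LR H →L[ℂ] LR H), IsShift t S →
    IsMulOp (fun w : ℝ => Complex.exp (2 * Real.pi * I * (-t : ℝ) * w)) S' →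
    ∀ f : LR H, Φ (S f) = S' (Φ f)) ∧
  ∀ (t : ℝ) (S S' : LR H →L[ℂ] LR H), IsShift t S →
    IsMulOp (fun w : ℝ => Complex.exp (2 * Real.pi * I * t * w)) S' →
    ∀ f : LR H, Φ (S' f) = S (Φ f)

/-- explicit boxes in the Fourier picture -/
def S_Q7 : Prop := ∀ (H : Type) [NormedAddCommGroup H] [InnerProductSpace ℂ H] [CompleteSpace H]
  (M : VonNeumannAlgebra H) (ξ : H) (U : ℝ → H →L[ℂ] H), IsModular M ξ U →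
  ∀ κ : (H →L[ℂ] H) →⋆ₐ[ℂ] (LR H →L[ℂ] LR H), (∀ y : H →L[ℂ] H, IsConst y (κ y)) →
  ∀ e : ℝ → LR H →L[ℂ] LR H,
    (∀ t : ℝ, IsMulOp (fun w : ℝ => Complex.exp (2 * Real.pi * I * t * w)) (e t)) →
    ∀ W : ℝ, 0 < W → Real.exp (2 * Real.pi * W) - 1 ≤ 1 →
      ∃ (J : H →L[ℂ] LR H) (E : ℂ → LR H →L[ℂ] LR H),
      BoxP U κ (fun t => e t * κ (U t)) J E (1 / W) (Real.exp (2 * Real.pi * W) - 1) ∧
      IsMulOp (Set.indicator (Set.Icc 0 W) (fun _ => (1 : ℂ))) (E 0) ∧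
      (E (-I / 2) (J ξ) : ℝ → H) =ᵐ[volume] Set.indicator (Set.Icc 0 W)
        (fun w : ℝ => (((Real.sqrt W)⁻¹ * Real.exp (Real.pi * w) : ℝ) : ℂ) • ξ)

/-- the grid in the Fourier picture (`K = L²(ℝ; H)`, translations in the variable `w`) -/
def S_Q8 : Prop := ∀ (H : Type) [NormedAddCommGroup H] [InnerProductSpace ℂ H] [CompleteSpace H]
  (ξ : H), ‖ξ‖ = 1 → ∀ R : ℝ → LR H →L[ℂ] LR H, (∀ t, IsShift t (R t)) → R 0 = 1 →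
  (∀ s t, R (s + t) = R s * R t) → (∀ t, star (R t) = R (-t)) →
  ∀ (W W' : ℝ) (m : ℕ), 0 < W' → 0 < m → W = m * W' → Real.exp (2 * Real.pi * W) - 1 ≤ 1 →
  ∀ (p p' : LR H →L[ℂ] LR H) (ζ ζ' : LR H),
  IsMulOp (Set.indicator (Set.Icc 0 W) (fun _ => (1 : ℂ))) p →
  IsMulOp (Set.indicator (Set.Icc 0 W') (fun _ => (1 : ℂ))) p' →
  (ζ : ℝ → H) =ᵐ[volume] Set.indicator (Set.Icc 0 W)
        (fun w : ℝ => (((Real.sqrt W)⁻¹ * Real.exp (Real.pi * w) : ℝ) : ℂ) • ξ) →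
  (ζ' : ℝ → H) =ᵐ[volume] Set.indicator (Set.Icc 0 W')
        (fun w : ℝ => (((Real.sqrt W')⁻¹ * Real.exp (Real.pi * w) : ℝ) : ℂ) • ξ) →
  let q : ℕ → LR H →L[ℂ] LR H := fun j => R (j * W') * p' * star (R (j * W'))
  (∀ j : ℕ, j < m → p * q j = q j) ∧ (∀ i j : ℕ, i < m → j < m → i ≠ j → q i * q j = 0) ∧
  ζ = ∑ j ∈ Finset.range m, q j ζ ∧
  (∀ j : ℕ, j < m → 1 ≤ 2 * Real.sqrt m * ((Real.sqrt m)⁻¹ * Real.exp (Real.pi * (j * W')))) ∧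
  (∀ j : ℕ, j < m → q j ζ =
    (((Real.sqrt m)⁻¹ * Real.exp (Real.pi * (j * W')) : ℝ) : ℂ) • R (j * W') ζ') ∧
  1 ≤ 2 * ‖ζ‖ ∧ ‖ζ‖ ≤ 2 ∧ 1 ≤ 2 * ‖ζ'‖ ∧ ‖ζ'‖ ≤ 2

/-- characters normalise the core -/
def S_Q9 : Prop := ∀ (H : Type) [NormedAddCommGroup H] [InnerProductSpace ℂ H] [CompleteSpace H]
  (M : VonNeumannAlgebra H) (U : ℝ → H →L[ℂ] H) (e : ℝ → LR H →L[ℂ] LR H),
  (∀ t : ℝ, IsMulOp (fun w : ℝ => Complex.exp (2 * Real.pi * I * t * w)) (e t)) →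
  ∀ (t : ℝ) (Z : LR H →L[ℂ] LR H), Z ∈ core M U → e t * Z * star (e t) ∈ core M U

/-- elements of the relative bicentralizer commute approximately with small corners -/
def S_Q10 : Prop := ∀ (H K : Type) [NormedAddCommGroup H] [InnerProductSpace ℂ H] [CompleteSpace H]
  [NormedAddCommGroup K] [InnerProductSpace ℂ K] [CompleteSpace K]
  (M N : VonNeumannAlgebra H) (ξ : H) (U : ℝ → H →L[ℂ] H), Std M N ξ U →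
  ∀ (κ : (H →L[ℂ] H) →⋆ₐ[ℂ] (K →L[ℂ] K)) (V : ℝ → K →L[ℂ] K)
  (A B : VonNeumannAlgebra K), (∀ x : K →L[ℂ] K, x ∈ A → x ∈ B) →
  (∀ Z : K →L[ℂ] K, Z ∈ B → Aff M κ V Z) → (∀ Z : K →L[ℂ] K, Z ∈ A → Aff N κ V Z) →
  (∀ x : H →L[ℂ] H, x ∈ M → (∀ t : ℝ, sgm U t x = x) → κ x ∈ B) →
  ∀ x : H →L[ℂ] H, x ∈ relBicentralizer N M ξ → (∀ t : ℝ, sgm U t x = x) →
  ∀ ε : ℝ, 0 < ε → ∃ δ0 : ℝ, 0 < δ0 ∧ ∀ (J : H →L[ℂ] K) (E : ℂ → K →L[ℂ] K) (T δ : ℝ),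
    BoxP U κ V J E T δ → E 0 ∈ A → δ ≤ δ0 →
    ∃ S : K →L[ℂ] K, Rel A B S ∧ ‖S‖ ≤ ‖x‖ ∧ ‖(S - κ x) (E (-I / 2) (J ξ))‖ ≤ ε

end

end Pool.Agent.W662.CB
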