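import Pool.Agent.H75.L.W662.CB.Stmts2

set_option autoImplicit false

open MeasureTheory Filter Topology Complex
open scoped InnerProductSpace ENNReal

namespace Pool.Agent.W662.CB

noncomputable section

/-- a tower of boxes -/
structure Tow {H K : Type} [NormedAddCommGroup H] [InnerProductSpace ℂ H] [CompleteSpace H]
    [NormedAddCommGroup K] [InnerProductSpace ℂ K] [CompleteSpace K]
    (U : ℝ → H →L[ℂ] H) (κ : (H →L[ℂ] H) →⋆ₐ[ℂ] (K →L[ℂ] K)) (V : ℝ → K →L[ℂ] K)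
    (A B : VonNeumannAlgebra K) (ξ : H)
    (J : ℕ → H →L[ℂ] K) (E : ℕ → ℂ → K →L[ℂ] K) (T δ : ℕ → ℝ) : Prop where
  box : ∀ k : ℕ, BoxP U κ V (J k) (E k) (T k) (δ k)
  mem : ∀ k : ℕ, E k 0 ∈ A
  lim : Tendsto δ atTop (𝓝 0)
  grid : ∀ k l : ℕ, ∃ (Θ : ℕ → K →L[ℂ] K) (c : ℕ → ℝ),
    Grid A B (E k 0) (E (k + l) 0) (E k (-I / 2) (J k ξ)) (E (k + l) (-I / 2) (J (k + l) ξ))
      (2 ^ l) Θ c ∧ ∀ (j : ℕ) (y : H →L[ℂ] H), Θ j * κ y = κ y * Θ j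

/-- `S` has the value `x` at the origin -/
def HasVal {H K : Type} [NormedAddCommGroup H] [InnerProductSpace ℂ H] [CompleteSpace H]
    [NormedAddCommGroup K] [InnerProductSpace ℂ K] [CompleteSpace K]
    (κ : (H →L[ℂ] H) →⋆ₐ[ℂ] (K →L[ℂ] K)) (A B : VonNeumannAlgebra K) (ζ : ℕ → K)
    (x : H →L[ℂ] H) (S : K →L[ℂ] K) : Prop :=
  Rel A B S ∧ Tendsto (fun k => ‖(S - κ x) (ζ k)‖) atTop (𝓝 0)

section

variable {H K : Type} [NormedAddCommGroup H] [InnerProductSpace ℂ H] [CompleteSpace H]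
    [NormedAddCommGroup K] [InnerProductSpace ℂ K] [CompleteSpace K]

theorem Rel.sub {A B : VonNeumannAlgebra K} {S S' : K →L[ℂ] K} (h : Rel A B S)
    (h' : Rel A B S') : Rel A B (S - S') :=
  ⟨sub_mem h.1 h'.1, fun Y hY => by rw [mul_sub, sub_mul, h.2 Y hY, h'.2 Y hY]⟩

theorem Rel.add {A B : VonNeumannAlgebra K} {S S' : K →L[ℂ] K} (h : Rel A B S)
    (h' : Rel A B S') : Rel A B (S + S') :=
  ⟨add_mem h.1 h'.1, fun Y hY => by rw [mul_add, add_mul, h.2 Y hY, h'.2 Y hY]⟩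

theorem Rel.mul {A B : VonNeumannAlgebra K} {S S' : K →L[ℂ] K} (h : Rel A B S)
    (h' : Rel A B S') : Rel A B (S * S') :=
  ⟨mul_mem h.1 h'.1, fun Y hY => by
    rw [← mul_assoc, h.2 Y hY, mul_assoc, h'.2 Y hY, mul_assoc]⟩

theorem Rel.smul {A B : VonNeumannAlgebra K} {S : K →L[ℂ] K} (c : ℂ) (h : Rel A B S) :
    Rel A B (c • S) :=
  ⟨B.toStarSubalgebra.toSubalgebra.smul_mem h.1 c, fun Y hY => by
    rw [mul_smul_comm, smul_mul_assoc, h.2 Y hY]⟩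

theorem Rel.star {A B : VonNeumannAlgebra K} {S : K →L[ℂ] K} (h : Rel A B S) :
    Rel A B (star S) :=
  ⟨star_mem h.1, fun Y hY => by
    have h1 := congrArg Star.star (h.2 (Star.star Y) (star_mem hY))
    simp only [star_mul, star_star] at h1
    exact h1.symm⟩

theorem Rel.one (A B : VonNeumannAlgebra K) : Rel A B 1 :=
  ⟨one_mem _, fun Y _ => by rw [mul_one, one_mul]⟩

end

/-- the standing data -/
structure Dat {H K : Type} [NormedAddCommGroup H] [InnerProductSpace ℂ H] [CompleteSpace H]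
    [NormedAddCommGroup K] [InnerProductSpace ℂ K] [CompleteSpace K]
    (M N : VonNeumannAlgebra H) (ξ : H)
    (U : ℝ → H →L[ℂ] H) (κ : (H →L[ℂ] H) →⋆ₐ[ℂ] (K →L[ℂ] K)) (V : ℝ → K →L[ℂ] K)
    (A B : VonNeumannAlgebra K)
    (J : ℕ → H →L[ℂ] K) (E : ℕ → ℂ → K →L[ℂ] K) (T δ : ℕ → ℝ) : Prop where
  std : Std M N ξ U
  le : ∀ x : K →L[ℂ] K, x ∈ A → x ∈ B
  affB : ∀ Z : K →L[ℂ] K, Z ∈ B → Aff M κ V Z
  affA : ∀ Z : K →L[ℂ] K, Z ∈ A → Aff N κ V Z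
  κB : ∀ x : H →L[ℂ] H, x ∈ M → (∀ t : ℝ, sgm U t x = x) → κ x ∈ B
  fac : IsFac A
  tow : Tow U κ V A B ξ J E T δ

section

variable {H K : Type} [NormedAddCommGroup H] [InnerProductSpace ℂ H] [CompleteSpace H]
    [NormedAddCommGroup K] [InnerProductSpace ℂ K] [CompleteSpace K]
    {M N : VonNeumannAlgebra H} {ξ : H}
    {U : ℝ → H →L[ℂ] H} {κ : (H →L[ℂ] H) →⋆ₐ[ℂ] (K →L[ℂ] K)} {V : ℝ → K →L[ℂ] K}
    {A B : VonNeumannAlgebra K}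
    {J : ℕ → H →L[ℂ] K} {E : ℕ → ℂ → K →L[ℂ] K} {T δ : ℕ → ℝ}

theorem box_proj {J : H →L[ℂ] K} {E : ℂ → K →L[ℂ] K} {T δ : ℝ} (h : BoxP U κ V J E T δ) :
    E 0 * E 0 = E 0 ∧ star (E 0) = E 0 ∧ ∀ z : ℂ, E 0 * E z = E z := by
  refine ⟨?_, ?_, ?_⟩
  · rw [← h.E_add, add_zero]
  · rw [h.E_star]; simp
  · intro z; rw [← h.E_add, zero_add]

theorem trv (hB5 : S_B5) (hB6 : S_B6) (hD : Dat M N ξ U κ V A B J E T δ) (k : ℕ) :
    TrV B (E k 0) (E k (-I / 2) (J k ξ)) := by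
  have hb := hD.tow.box k
  obtain ⟨-, -, h0⟩ := box_proj hb
  refine ⟨?_, ?_, ?_⟩
  · show (E k 0 * E k (-I / 2)) (J k ξ) = _
    rw [h0]
  · intro Z hZ hZ'
    exact hB5 H K M ξ U κ V (J k) (E k) (T k) (δ k) hD.std.modular hb Z (hD.affB Z hZ) hZ'
  · intro Z hZ hZ' h
    exact hB6 H K M ξ U κ V (J k) (E k) (T k) (δ k) hD.std.modular hD.std.sep hb Z
      (hD.affB Z hZ) hZ' h

/-- comparison of the norms at the windows `0` and `k` -/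
theorem nrm (hB5 : S_B5) (hB6 : S_B6) (h3 : S_Q3) (hD : Dat M N ξ U κ V A B J E T δ) (i k : ℕ)
    (S : K →L[ℂ] K) (hS : Rel A B S) :
    ‖S (E (i + k) (-I / 2) (J (i + k) ξ))‖ * ‖E i (-I / 2) (J i ξ)‖ =
      ‖S (E i (-I / 2) (J i ξ))‖ * ‖E (i + k) (-I / 2) (J (i + k) ξ)‖ := by
  obtain ⟨Θ, c, hG, -⟩ := hD.tow.grid i k
  have hb := hD.tow.box i
  obtain ⟨hp1, hp2, -⟩ := box_proj hb
  obtain ⟨hq1, hq2, -⟩ := box_proj (hD.tow.box (i + k))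
  have hm0 : (0 : ℕ) < 2 ^ k := hG.pos
  have hq : Θ 0 * E (i + k) 0 * star (Θ 0) = E (i + k) 0 := by
    rw [hG.zero]; simp
  have h := h3 K A B hD.le hD.fac (E i 0) (hD.tow.mem i) hp1 hp2 _ (trv hB5 hB6 hD i) S hS
    (E (i + k) 0) (hD.tow.mem (i + k)) hq1 hq2 (by
      have := hG.q_le 0 hm0
      rwa [hq] at this)
  have hc : (E (i + k) 0) (E i (-I / 2) (J i ξ)) =
      ((c 0 : ℝ) : ℂ) • (E (i + k) (-I / 2) (J (i + k) ξ)) := by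
    have := hG.q_ζ 0 hm0
    rw [hq, hG.zero] at this
    simpa using this
  have hc0 : 0 < c 0 := by
    have h1 := hG.c_ge 0 hm0
    by_contra hneg
    push Not at hneg
    have h2 : 0 ≤ Real.sqrt ((2 ^ k : ℕ) : ℝ) := Real.sqrt_nonneg _
    nlinarith [mul_nonneg h2 (neg_nonneg.2 hneg)]
  rw [hc, map_smul, norm_smul, norm_smul] at h
  have hn : ‖((c 0 : ℝ) : ℂ)‖ = c 0 := by
    rw [Complex.norm_real, Real.norm_eq_abs, abs_of_pos hc0]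
  rw [hn] at h
  have : c 0 * (‖S (E (i + k) (-I / 2) (J (i + k) ξ))‖ * ‖E i (-I / 2) (J i ξ)‖) =
      c 0 * (‖S (E i (-I / 2) (J i ξ))‖ * ‖E (i + k) (-I / 2) (J (i + k) ξ)‖) := by
    linarith
  exact mul_left_cancel₀ hc0.ne' this

theorem bnd (hD : Dat M N ξ U κ V A B J E T δ) (k : ℕ) :
    1 ≤ 2 * ‖E k (-I / 2) (J k ξ)‖ ∧ ‖E k (-I / 2) (J k ξ)‖ ≤ 2 := by
  obtain ⟨Θ, c, hG, -⟩ := hD.tow.grid k 0
  exact ⟨hG.n1, hG.n2⟩

theorem nrm_le (hB5 : S_B5) (hB6 : S_B6) (h3 : S_Q3) (hD : Dat M N ξ U κ V A B J E T δ) (i k : ℕ)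
    (S : K →L[ℂ] K) (hS : Rel A B S) :
    ‖S (E (i + k) (-I / 2) (J (i + k) ξ))‖ ≤ 4 * ‖S (E i (-I / 2) (J i ξ))‖ ∧
    ‖S (E i (-I / 2) (J i ξ))‖ ≤ 4 * ‖S (E (i + k) (-I / 2) (J (i + k) ξ))‖ := by
  have h := nrm hB5 hB6 h3 hD i k S hS
  obtain ⟨a1, a2⟩ := bnd hD i
  obtain ⟨b1, b2⟩ := bnd hD (i + k)
  have s1 := norm_nonneg (S (E (i + k) (-I / 2) (J (i + k) ξ)))
  have s2 := norm_nonneg (S (E i (-I / 2) (J i ξ)))
  constructor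
  · nlinarith
  · nlinarith

/-- comparison of approximants -/
theorem cmp (hB5 : S_B5) (hB6 : S_B6) (h3 : S_Q3) (h5 : S_Q5)
    (hD : Dat M N ξ U κ V A B J E T δ) (i k : ℕ) (x : H →L[ℂ] H)
    (S S' : K →L[ℂ] K) (hS : Rel A B S) (hS' : Rel A B S') (ρ ρ' : ℝ)
    (h : ‖(S - κ x) (E i (-I / 2) (J i ξ))‖ ≤ ρ)
    (h' : ‖(S' - κ x) (E (i + k) (-I / 2) (J (i + k) ξ))‖ ≤ ρ') :
    ‖(S - S') (E 0 (-I / 2) (J 0 ξ))‖ ≤ 48 * (4 * ρ + ρ') := by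
  obtain ⟨Θ, c, hG, hΘ⟩ := hD.tow.grid i k
  have hb := hD.tow.box i
  have hb' := hD.tow.box (i + k)
  obtain ⟨hp1, hp2, -⟩ := box_proj hb
  obtain ⟨hq1, hq2, -⟩ := box_proj hb'
  have ht := trv hB5 hB6 hD i
  have ht' := trv hB5 hB6 hD (i + k)
  have h6 := h5 K A B hD.le (E i 0) (E (i + k) 0) (hD.tow.mem i) hp1 hp2 (hD.tow.mem (i + k))
    hq1 hq2 _ _ (2 ^ k) Θ c hG ht'.fix
    (fun S hS q hq1 hq2 hq3 hq4 => h3 K A B hD.le hD.fac (E i 0) (hD.tow.mem i) hp1 hp2 _ ht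
      S hS q hq1 hq2 hq3 hq4)
    (κ x) S S' ρ ρ' (fun j => hΘ j x) (hb'.κ_E x 0).symm hS hS' h h'
  have h7 := (nrm_le hB5 hB6 h3 hD 0 i (S - S') (hS.sub hS')).2
  rw [zero_add] at h7
  calc ‖(S - S') (E 0 (-I / 2) (J 0 ξ))‖ ≤ 4 * ‖(S - S') (E i (-I / 2) (J i ξ))‖ := h7
    _ ≤ 4 * (12 * (4 * ρ + ρ')) := by linarith
    _ = 48 * (4 * ρ + ρ') := by ring

/-- uniqueness -/
theorem uniq (hB5 : S_B5) (hB6 : S_B6) (h3 : S_Q3) (h4 : S_Q4)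
    (hD : Dat M N ξ U κ V A B J E T δ) (x : H →L[ℂ] H) (S S' : K →L[ℂ] K)
    (hS : HasVal κ A B (fun k => E k (-I / 2) (J k ξ)) x S)
    (hS' : HasVal κ A B (fun k => E k (-I / 2) (J k ξ)) x S') : S = S' := by
  have hr := hS.1.sub hS'.1
  have hz : ‖(S - S') (E 0 (-I / 2) (J 0 ξ))‖ ≤ 0 := by
    have hlim : Tendsto (fun k => 4 * (‖(S - κ x) (E k (-I / 2) (J k ξ))‖ +
        ‖(S' - κ x) (E k (-I / 2) (J k ξ))‖)) atTop (𝓝 0) := by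
      have := (hS.2.add hS'.2).const_mul 4
      simpa using this
    refine ge_of_tendsto hlim (Eventually.of_forall fun k => ?_)
    have h7 := (nrm_le hB5 hB6 h3 hD 0 k (S - S') hr).2
    rw [zero_add] at h7
    refine h7.trans ?_
    have e : (S - S') (E k (-I / 2) (J k ξ)) = (S - κ x) (E k (-I / 2) (J k ξ)) -
        (S' - κ x) (E k (-I / 2) (J k ξ)) := by
      simp
    rw [e]
    have := norm_sub_le ((S - κ x) (E k (-I / 2) (J k ξ))) ((S' - κ x) (E k (-I / 2) (J k ξ)))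
    linarith
  obtain ⟨hp1, hp2, -⟩ := box_proj (hD.tow.box 0)
  have hne : E 0 (-I / 2) (J 0 ξ) ≠ 0 := by
    intro h0
    have := (bnd hD 0).1
    rw [h0, norm_zero] at this
    linarith
  have h0 := (h4 K A B hD.le hD.fac (E 0 0) (hD.tow.mem 0) hp1 hp2 _ (trv hB5 hB6 hD 0) hne).1
    (S - S') hr (norm_le_zero_iff.1 hz)
  exact sub_eq_zero.1 h0

/-- existence -/
theorem exi (hB5 : S_B5) (hB6 : S_B6) (h3 : S_Q3) (h4 : S_Q4) (h5 : S_Q5) (h10 : S_Q10)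
    (hD : Dat M N ξ U κ V A B J E T δ) (x : H →L[ℂ] H) (hx : x ∈ relBicentralizer N M ξ)
    (hxU : ∀ t : ℝ, sgm U t x = x) :
    ∃ S : K →L[ℂ] K, HasVal κ A B (fun k => E k (-I / 2) (J k ξ)) x S ∧ ‖S‖ ≤ ‖x‖ := by
  -- approximants
  have happ : ∀ n : ℕ, ∃ K0 : ℕ, ∀ k : ℕ, K0 ≤ k → ∃ S : K →L[ℂ] K, Rel A B S ∧ ‖S‖ ≤ ‖x‖ ∧
      ‖(S - κ x) (E k (-I / 2) (J k ξ))‖ ≤ 1 / ((n : ℝ) + 1) := by
    intro n
    obtain ⟨δ0, hδ0, h⟩ := h10 H K M N ξ U hD.std κ V A B hD.le hD.affB hD.affA hD.κB x hx hxU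
      (1 / ((n : ℝ) + 1)) (by positivity)
    obtain ⟨K0, hK0⟩ := eventually_atTop.1 ((hD.tow.lim.eventually (ge_mem_nhds hδ0)))
    exact ⟨K0, fun k hk => h (J k) (E k) (T k) (δ k) (hD.tow.box k) (hD.tow.mem k) (hK0 k hk)⟩
  choose K0 hK0 using happ
  let kk : ℕ → ℕ := fun n => (Finset.range (n + 1)).sup K0
  have hkk : ∀ n, K0 n ≤ kk n := fun n => Finset.le_sup (f := K0) (Finset.self_mem_range_succ n)
  have hmono : Monotone kk := fun a b hab => Finset.sup_mono (Finset.range_mono (by omega))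
  choose SS hSS using fun n : ℕ => hK0 n (kk n) (hkk n)
  have hcmp : ∀ n n' : ℕ, n ≤ n' →
      ‖(SS n - SS n') (E 0 (-I / 2) (J 0 ξ))‖ ≤ 240 * (1 / ((n : ℝ) + 1)) := by
    intro n n' hnn
    obtain ⟨l, hl⟩ := Nat.exists_eq_add_of_le (hmono hnn)
    have h1 := (hSS n).2.2
    have h2 := (hSS n').2.2
    rw [hl] at h2
    have h3' := cmp hB5 hB6 h3 h5 hD (kk n) l x (SS n) (SS n') (hSS n).1 (hSS n').1 _ _ h1 h2
    have h4' : 1 / ((n' : ℝ) + 1) ≤ 1 / ((n : ℝ) + 1) := by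
      apply one_div_le_one_div_of_le (by positivity)
      have : (n : ℝ) ≤ n' := by exact_mod_cast hnn
      linarith
    linarith
  have hlim0 : Tendsto (fun n : ℕ => 240 * (1 / ((n : ℝ) + 1))) atTop (𝓝 0) := by
    have := (tendsto_one_div_add_atTop_nhds_zero_nat (𝕜 := ℝ)).const_mul 240
    simpa using this
  have hcau : CauchySeq (fun n => SS n (E 0 (-I / 2) (J 0 ξ))) := by
    refine cauchySeq_of_le_tendsto_0 (fun n => 2 * (240 * (1 / ((n : ℝ) + 1)))) ?_ (by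
      simpa using hlim0.const_mul 2)
    intro n m Nn hn hm
    rw [dist_eq_norm]
    have h1 := hcmp Nn n hn
    have h2 := hcmp Nn m hm
    have e : SS n (E 0 (-I / 2) (J 0 ξ)) - SS m (E 0 (-I / 2) (J 0 ξ)) =
        (SS Nn - SS m) (E 0 (-I / 2) (J 0 ξ)) - (SS Nn - SS n) (E 0 (-I / 2) (J 0 ξ)) := by
      simp
    rw [e]
    have := norm_sub_le ((SS Nn - SS m) (E 0 (-I / 2) (J 0 ξ)))
      ((SS Nn - SS n) (E 0 (-I / 2) (J 0 ξ)))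
    linarith
  obtain ⟨hp1, hp2, -⟩ := box_proj (hD.tow.box 0)
  have hne : E 0 (-I / 2) (J 0 ξ) ≠ 0 := by
    intro h0
    have := (bnd hD 0).1
    rw [h0, norm_zero] at this
    linarith
  obtain ⟨S, hS, hSn, hSl⟩ := (h4 K A B hD.le hD.fac (E 0 0) (hD.tow.mem 0) hp1 hp2 _
    (trv hB5 hB6 hD 0) hne).2 SS ‖x‖ (fun n => (hSS n).1) (fun n => (hSS n).2.1) hcau
  have hfar : ∀ n, ‖(S - SS n) (E 0 (-I / 2) (J 0 ξ))‖ ≤ 240 * (1 / ((n : ℝ) + 1)) := by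
    intro n
    have hl : Tendsto (fun n' => ‖(SS n' - SS n) (E 0 (-I / 2) (J 0 ξ))‖) atTop
        (𝓝 ‖(S - SS n) (E 0 (-I / 2) (J 0 ξ))‖) := by
      have := (hSl.sub_const (SS n (E 0 (-I / 2) (J 0 ξ)))).norm
      simpa using this
    refine le_of_tendsto hl ?_
    filter_upwards [eventually_ge_atTop n] with n' hn'
    have := hcmp n n' hn'
    have e : (SS n' - SS n) (E 0 (-I / 2) (J 0 ξ)) =
        - ((SS n - SS n') (E 0 (-I / 2) (J 0 ξ))) := by simp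
    rw [e, norm_neg]
    exact this
  refine ⟨S, ⟨hS, ?_⟩, hSn⟩
  rw [Metric.tendsto_atTop]
  intro ε hε
  obtain ⟨n, hn⟩ := exists_nat_gt (1921 / ε)
  refine ⟨kk n, fun k hk => ?_⟩
  obtain ⟨Tk, hTk, hTn, hTe⟩ := hK0 n k ((hkk n).trans hk)
  obtain ⟨l, hl⟩ := Nat.exists_eq_add_of_le hk
  have h2 := hTe
  rw [hl] at h2
  have h6 := cmp hB5 hB6 h3 h5 hD (kk n) l x (SS n) Tk (hSS n).1 hTk _ _ (hSS n).2.2 h2
  have h7 : ‖(S - Tk) (E 0 (-I / 2) (J 0 ξ))‖ ≤ 480 * (1 / ((n : ℝ) + 1)) := by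
    have e : (S - Tk) (E 0 (-I / 2) (J 0 ξ)) = (S - SS n) (E 0 (-I / 2) (J 0 ξ)) +
        (SS n - Tk) (E 0 (-I / 2) (J 0 ξ)) := by simp
    rw [e]
    have := norm_add_le ((S - SS n) (E 0 (-I / 2) (J 0 ξ))) ((SS n - Tk) (E 0 (-I / 2) (J 0 ξ)))
    have := hfar n
    linarith
  have h8 := (nrm_le hB5 hB6 h3 hD 0 k (S - Tk) (hS.sub hTk)).1
  rw [zero_add] at h8
  have h9 : ‖(S - κ x) (E k (-I / 2) (J k ξ))‖ ≤ 1921 * (1 / ((n : ℝ) + 1)) := by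
    have e : (S - κ x) (E k (-I / 2) (J k ξ)) = (S - Tk) (E k (-I / 2) (J k ξ)) +
        (Tk - κ x) (E k (-I / 2) (J k ξ)) := by simp
    rw [e]
    have := norm_add_le ((S - Tk) (E k (-I / 2) (J k ξ))) ((Tk - κ x) (E k (-I / 2) (J k ξ)))
    linarith
  rw [Real.dist_eq, sub_zero, abs_of_nonneg (norm_nonneg _)]
  refine lt_of_le_of_lt h9 ?_
  have hn1 : (0 : ℝ) < (n : ℝ) + 1 := by positivity
  rw [mul_one_div, div_lt_iff₀ hn1]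
  have : 1921 < n * ε := by
    rwa [div_lt_iff₀ hε] at hn
  nlinarith

end

end

end Pool.Agent.W662.CB
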