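import Pool.Agent.H75.L.W662.CB.Abs2

set_option autoImplicit false

open MeasureTheory Filter Topology Complex
open scoped InnerProductSpace ENNReal

namespace Pool.Agent.W662.CB

noncomputable section

section

variable {H K : Type} [NormedAddCommGroup H] [InnerProductSpace ℂ H] [CompleteSpace H]
    [NormedAddCommGroup K] [InnerProductSpace ℂ K] [CompleteSpace K]
    {M N : VonNeumannAlgebra H} {ξ : H}
    {U : ℝ → H →L[ℂ] H} {κ : (H →L[ℂ] H) →⋆ₐ[ℂ] (K →L[ℂ] K)} {V : ℝ → K →L[ℂ] K}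
    {A B : VonNeumannAlgebra K}
    {J : ℕ → H →L[ℂ] K} {E : ℕ → ℂ → K →L[ℂ] K} {T δ : ℕ → ℝ}

theorem hv_add {ζ : ℕ → K} {x y : H →L[ℂ] H} {S S' : K →L[ℂ] K}
    (h : HasVal κ A B ζ x S) (h' : HasVal κ A B ζ y S') :
    HasVal κ A B ζ (x + y) (S + S') := by
  refine ⟨h.1.add h'.1, ?_⟩
  have hl : Tendsto (fun k => ‖(S - κ x) (ζ k)‖ + ‖(S' - κ y) (ζ k)‖) atTop (𝓝 0) := by
    simpa using h.2.add h'.2
  refine squeeze_zero (fun k => norm_nonneg _) (fun k => ?_) hl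
  have e : (S + S' - κ (x + y)) (ζ k) = (S - κ x) (ζ k) + (S' - κ y) (ζ k) := by
    rw [map_add]; simp only [ContinuousLinearMap.sub_apply, ContinuousLinearMap.add_apply]; abel
  rw [e]
  exact norm_add_le _ _

theorem hv_smul {ζ : ℕ → K} {x : H →L[ℂ] H} {S : K →L[ℂ] K} (c : ℂ)
    (h : HasVal κ A B ζ x S) : HasVal κ A B ζ (c • x) (c • S) := by
  refine ⟨h.1.smul c, ?_⟩
  have hl : Tendsto (fun k => ‖c‖ * ‖(S - κ x) (ζ k)‖) atTop (𝓝 0) := by
    simpa using h.2.const_mul ‖c‖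
  refine hl.congr fun k => ?_
  have e : (c • S - κ (c • x)) (ζ k) = c • ((S - κ x) (ζ k)) := by
    rw [map_smul]; simp only [ContinuousLinearMap.sub_apply, ContinuousLinearMap.smul_apply,
      smul_sub]
  rw [e, norm_smul]

theorem hv_one {ζ : ℕ → K} : HasVal κ A B ζ (1 : H →L[ℂ] H) 1 := by
  refine ⟨Rel.one A B, ?_⟩
  have : (fun k => ‖((1 : K →L[ℂ] K) - κ 1) (ζ k)‖) = fun _ => (0 : ℝ) := by
    funext k; rw [map_one]; simp
  rw [this]
  exact tendsto_const_nhds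

/-- the corner element -/
theorem corner (hD : Dat M N ξ U κ V A B J E T δ) (k : ℕ) {x : H →L[ℂ] H} (hx : x ∈ M)
    (hxU : ∀ t : ℝ, sgm U t x = x) {S : K →L[ℂ] K} (hS : Rel A B S) :
    (S - κ x) * E k 0 ∈ B ∧ E k 0 * ((S - κ x) * E k 0) * E k 0 = (S - κ x) * E k 0 ∧
      (S - κ x) * E k 0 = E k 0 * (S - κ x) := by
  obtain ⟨hp1, hp2, -⟩ := box_proj (hD.tow.box k)
  have hc : (S - κ x) * E k 0 = E k 0 * (S - κ x) := by
    rw [sub_mul, mul_sub, ← hS.2 _ (hD.tow.mem k), (hD.tow.box k).κ_E x 0]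
  refine ⟨mul_mem (sub_mem hS.1 (hD.κB x hx hxU)) (hD.le _ (hD.tow.mem k)), ?_, hc⟩
  calc E k 0 * ((S - κ x) * E k 0) * E k 0 = (E k 0 * (S - κ x)) * (E k 0 * E k 0) := by
        noncomm_ring
    _ = (S - κ x) * E k 0 * E k 0 := by rw [hp1, hc]
    _ = (S - κ x) * (E k 0 * E k 0) := by rw [mul_assoc]
    _ = (S - κ x) * E k 0 := by rw [hp1]

theorem hv_star (hB5 : S_B5) (hB6 : S_B6) (hD : Dat M N ξ U κ V A B J E T δ)
    {x : H →L[ℂ] H} (hx : x ∈ M) (hxU : ∀ t : ℝ, sgm U t x = x) {S : K →L[ℂ] K}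
    (h : HasVal κ A B (fun k => E k (-I / 2) (J k ξ)) x S) :
    HasVal κ A B (fun k => E k (-I / 2) (J k ξ)) (star x) (star S) := by
  refine ⟨h.1.star, ?_⟩
  refine h.2.congr fun k => ?_
  obtain ⟨hZB, hZp, hZc⟩ := corner hD k hx hxU h.1
  have ht := trv hB5 hB6 hD k
  have hp := box_proj (hD.tow.box k)
  have h1 := ht.tr _ hZB hZp
  have e1 : ((S - κ x) * E k 0) (E k (-I / 2) (J k ξ)) = (S - κ x) (E k (-I / 2) (J k ξ)) := by
    show (S - κ x) (E k 0 (E k (-I / 2) (J k ξ))) = _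
    rw [ht.fix]
  have e2 : star ((S - κ x) * E k 0) (E k (-I / 2) (J k ξ)) =
      (star S - κ (star x)) (E k (-I / 2) (J k ξ)) := by
    rw [hZc, star_mul, hp.2.1, star_sub, map_star]
    show (star S - star (κ x)) (E k 0 (E k (-I / 2) (J k ξ))) = _
    rw [ht.fix]
  rw [e1, e2] at h1
  exact h1

theorem hv_mul (hB5 : S_B5) (hB6 : S_B6) (hD : Dat M N ξ U κ V A B J E T δ)
    {x y : H →L[ℂ] H} (hx : x ∈ M) (hxU : ∀ t : ℝ, sgm U t x = x)
    (hy : y ∈ M) (hyU : ∀ t : ℝ, sgm U t y = y) {S S' : K →L[ℂ] K}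
    (h : HasVal κ A B (fun k => E k (-I / 2) (J k ξ)) x S)
    (h' : HasVal κ A B (fun k => E k (-I / 2) (J k ξ)) y S') :
    HasVal κ A B (fun k => E k (-I / 2) (J k ξ)) (x * y) (S * S') := by
  refine ⟨h.1.mul h'.1, ?_⟩
  have hl : Tendsto (fun k => ‖S‖ * ‖(S' - κ y) (E k (-I / 2) (J k ξ))‖ +
      ‖κ y‖ * ‖(S - κ x) (E k (-I / 2) (J k ξ))‖) atTop (𝓝 0) := by
    simpa using (h'.2.const_mul ‖S‖).add (h.2.const_mul ‖κ y‖)
  refine squeeze_zero (fun k => norm_nonneg _) (fun k => ?_) hl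
  obtain ⟨hZB, hZp, hZc⟩ := corner hD k hx hxU h.1
  have ht := trv hB5 hB6 hD k
  have hp := box_proj (hD.tow.box k)
  have hyp : κ y * E k 0 = E k 0 * κ y := (hD.tow.box k).κ_E y 0
  have hW : E k 0 * ((S - κ x) * E k 0 * κ y) * E k 0 = (S - κ x) * E k 0 * κ y := by
    calc E k 0 * ((S - κ x) * E k 0 * κ y) * E k 0
        = E k 0 * ((S - κ x) * E k 0) * (κ y * E k 0) := by noncomm_ring
      _ = E k 0 * ((S - κ x) * E k 0) * E k 0 * κ y := by rw [hyp]; noncomm_ring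
      _ = (S - κ x) * E k 0 * κ y := by rw [hZp]
  have h1 := ht.tr _ (mul_mem hZB (hD.κB y hy hyU)) hW
  have h2 := ht.tr _ hZB hZp
  have e1 : ((S - κ x) * E k 0 * κ y) (E k (-I / 2) (J k ξ)) =
      (S - κ x) (κ y (E k (-I / 2) (J k ξ))) := by
    have : (S - κ x) * E k 0 * κ y = (S - κ x) * (κ y * E k 0) := by rw [hyp]; noncomm_ring
    rw [this]
    show (S - κ x) (κ y (E k 0 (E k (-I / 2) (J k ξ)))) = _
    rw [ht.fix]
  have e2 : ((S - κ x) * E k 0) (E k (-I / 2) (J k ξ)) = (S - κ x) (E k (-I / 2) (J k ξ)) := by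
    show (S - κ x) (E k 0 (E k (-I / 2) (J k ξ))) = _
    rw [ht.fix]
  have h3 : ‖(S - κ x) (κ y (E k (-I / 2) (J k ξ)))‖ ≤
      ‖κ y‖ * ‖(S - κ x) (E k (-I / 2) (J k ξ))‖ := by
    rw [← e1, h1, star_mul, ← e2, h2, ← norm_star (κ y)]
    exact (star (κ y)).le_opNorm _
  have e3 : (S * S' - κ (x * y)) (E k (-I / 2) (J k ξ)) =
      S ((S' - κ y) (E k (-I / 2) (J k ξ))) + (S - κ x) (κ y (E k (-I / 2) (J k ξ))) := by
    rw [map_mul]
    simp only [ContinuousLinearMap.sub_apply, ContinuousLinearMap.mul_apply', map_sub]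
    abel
  rw [e3]
  refine (norm_add_le _ _).trans (add_le_add (S.le_opNorm _) h3)

theorem hv_inj (hD : Dat M N ξ U κ V A B J E T δ) {x : H →L[ℂ] H} (hx : x ∈ M)
    (h : HasVal κ A B (fun k => E k (-I / 2) (J k ξ)) x 0) : x = 0 := by
  refine hD.std.sep x hx ?_
  have hl : Tendsto (fun k => ‖((0 : K →L[ℂ] K) - κ x) (E k (-I / 2) (J k ξ))‖ +
      ‖κ x‖ * δ k) atTop (𝓝 0) := by
    simpa using h.2.add (hD.tow.lim.const_mul ‖κ x‖)
  have : ‖x ξ‖ ≤ 0 := by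
    refine ge_of_tendsto hl (Eventually.of_forall fun k => ?_)
    have hb := hD.tow.box k
    have hJ : ∀ v : H, ‖J k v‖ = ‖v‖ := by
      intro v
      have h1 : ⟪J k v, J k v⟫_ℂ = ⟪v, v⟫_ℂ := by
        rw [← ContinuousLinearMap.adjoint_inner_left, hb.J_iso]
      have h2 : ‖J k v‖ ^ 2 = ‖v‖ ^ 2 := by
        have h3 := congrArg Complex.re h1
        rwa [← @inner_self_eq_norm_sq ℂ, ← @inner_self_eq_norm_sq ℂ]
      exact (pow_left_inj₀ (norm_nonneg _) (norm_nonneg _) two_ne_zero).1 h2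
    have e1 : κ x (J k ξ) = J k (x ξ) := hb.κ_J x ξ
    have e2 : ‖x ξ‖ = ‖κ x (J k ξ)‖ := by rw [e1, hJ]
    have e3 : ‖E k (-I / 2) (J k ξ) - J k ξ‖ ≤ δ k := by
      have h4 : E k (-I / 2) (J k ξ) - J k ξ = (E k (-I / 2) - E k 0) (J k ξ) := by
        rw [ContinuousLinearMap.sub_apply, hb.E_J]
      rw [h4]
      refine ((E k (-I / 2) - E k 0).le_opNorm _).trans ?_
      rw [hJ, hD.std.unit, mul_one]
      exact hb.nE3
    have e4 : κ x (J k ξ) = κ x (E k (-I / 2) (J k ξ)) -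
        κ x (E k (-I / 2) (J k ξ) - J k ξ) := by
      rw [map_sub]; abel
    rw [e2, e4]
    refine (norm_sub_le _ _).trans (add_le_add ?_ ?_)
    · simp
    · refine ((κ x).le_opNorm _).trans ?_
      exact mul_le_mul_of_nonneg_left e3 (norm_nonneg _)
  exact norm_le_zero_iff.1 this

/-- the abstract theorem -/
theorem abs_main (hB5 : S_B5) (hB6 : S_B6) (h3 : S_Q3) (h4 : S_Q4) (h5 : S_Q5) (h10 : S_Q10)
    (hD : Dat M N ξ U κ V A B J E T δ) :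
    ∃ π : (H →L[ℂ] H) → (K →L[ℂ] K),
      (∀ x : H →L[ℂ] H, x ∈ relBicentralizer N M ξ → (∀ t : ℝ, sgm U t x = x) →
        Rel A B (π x) ∧ ‖π x‖ ≤ ‖x‖ ∧ (π x = 0 → x = 0) ∧ π (star x) = star (π x) ∧
        ∀ c : ℂ, π (c • x) = c • π x) ∧
      (∀ x y : H →L[ℂ] H, x ∈ relBicentralizer N M ξ → (∀ t : ℝ, sgm U t x = x) →
        y ∈ relBicentralizer N M ξ → (∀ t : ℝ, sgm U t y = y) →
        π (x + y) = π x + π y ∧ π (x * y) = π x * π y) ∧ π 1 = 1 := by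
  classical
  let P : (H →L[ℂ] H) → Prop := fun x =>
    ∃ S, HasVal κ A B (fun k => E k (-I / 2) (J k ξ)) x S
  let π : (H →L[ℂ] H) → (K →L[ℂ] K) := fun x => if h : P x then h.choose else 0
  have key : ∀ x S, HasVal κ A B (fun k => E k (-I / 2) (J k ξ)) x S → π x = S := by
    intro x S hS
    have hP : P x := ⟨S, hS⟩
    have : π x = hP.choose := dif_pos hP
    rw [this]
    exact uniq hB5 hB6 h3 h4 hD x _ _ hP.choose_spec hS
  have hM : ∀ x, x ∈ relBicentralizer N M ξ → x ∈ M := fun x hx => hx.1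
  refine ⟨π, ?_, ?_, key 1 1 hv_one⟩
  · intro x hx hxU
    obtain ⟨S, hS, hn⟩ := exi hB5 hB6 h3 h4 h5 h10 hD x hx hxU
    rw [key x S hS, key _ _ (hv_star hB5 hB6 hD (hM x hx) hxU hS)]
    refine ⟨hS.1, hn, ?_, rfl, fun c => key _ _ (hv_smul c hS)⟩
    intro h0
    rw [h0] at hS
    exact hv_inj hD (hM x hx) hS
  · intro x y hx hxU hy hyU
    obtain ⟨S, hS, -⟩ := exi hB5 hB6 h3 h4 h5 h10 hD x hx hxU
    obtain ⟨S', hS', -⟩ := exi hB5 hB6 h3 h4 h5 h10 hD y hy hyU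
    rw [key x S hS, key y S' hS']
    exact ⟨key _ _ (hv_add hS hS'),
      key _ _ (hv_mul hB5 hB6 hD (hM x hx) hxU (hM y hy) hyU hS hS')⟩

end

end

end Pool.Agent.W662.CB
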