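import Pool.Agent.H75.L.W662.CB.Abs3
import Pool.Agent.H75.L.W662.CB.Fin
import Pool.Agent.H75.L.W672.CB.E8

set_option autoImplicit false
set_option linter.unusedSectionVars false

open MeasureTheory Filter Topology Complex
open scoped InnerProductSpace ENNReal

namespace Pool.Agent.W662.CB

open Pool.Agent.W672.CB

noncomputable section

theorem e8x (H K L : Type) [NormedAddCommGroup H] [InnerProductSpace ℂ H] [CompleteSpace H]
  [NormedAddCommGroup K] [InnerProductSpace ℂ K] [CompleteSpace K]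
  [NormedAddCommGroup L] [InnerProductSpace ℂ L] [CompleteSpace L]
  (U : ℝ → H →L[ℂ] H) (κ : (H →L[ℂ] H) →⋆ₐ[ℂ] (K →L[ℂ] K)) (V : ℝ → K →L[ℂ] K)
  (J : H →L[ℂ] K) (E : ℂ → K →L[ℂ] K) (T δ : ℝ) (hB : BoxP U κ V J E T δ)
  (κ' : (H →L[ℂ] H) →⋆ₐ[ℂ] (L →L[ℂ] L)) (V' : ℝ → L →L[ℂ] L) (Φ : L ≃ₗᵢ[ℂ] K)
  (hκ : ∀ (y : H →L[ℂ] H) (f : L), Φ (κ' y f) = κ y (Φ f))
  (hV : ∀ (t : ℝ) (f : L), Φ (V' t f) = V t (Φ f)) :
  ∃ (J' : H →L[ℂ] L) (E' : ℂ → L →L[ℂ] L), (∀ v : H, Φ (J' v) = J v) ∧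
    (∀ (z : ℂ) (f : L), Φ (E' z f) = E z (Φ f)) ∧ BoxP U κ' V' J' E' T δ := by
  let J' : H →L[ℂ] L := (Φ.symm.toContinuousLinearEquiv : K →L[ℂ] L) ∘L J
  let E' : ℂ → L →L[ℂ] L := fun z => cj Φ (E z)
  have hJ' : ∀ v, J' v = Φ.symm (J v) := fun v => rfl
  have hE' : ∀ z, E' z = cj Φ (E z) := fun z => rfl
  have hκ' : ∀ y, κ' y = cj Φ (κ y) := by
    intro y
    ext f
    apply Φ.injective
    rw [hκ, Phi_cj]
  have hV' : ∀ t, V' t = cj Φ (V t) := by
    intro t
    ext f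
    apply Φ.injective
    rw [hV, Phi_cj]
  have hadj : ∀ f : L, ContinuousLinearMap.adjoint J' f = ContinuousLinearMap.adjoint J (Φ f) := by
    intro f
    apply ext_inner_right ℂ
    intro v
    rw [ContinuousLinearMap.adjoint_inner_left, ContinuousLinearMap.adjoint_inner_left, hJ',
      ← Φ.inner_map_map, LinearIsometryEquiv.apply_symm_apply]
  refine ⟨J', E', fun v => by rw [hJ', LinearIsometryEquiv.apply_symm_apply],
    fun z f => Phi_cj Φ (E z) f, ?_⟩
  constructor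
  · rw [hV', hB.V_zero]
    ext f
    rw [cj_apply, one_apply_eq_self, LinearIsometryEquiv.symm_apply_apply]
    rfl
  · intro s t
    rw [hV', hV', hV', hB.V_add, cj_mul]
  · intro t
    rw [hV', hV', cj_star, hB.V_star]
  · intro z w
    rw [hE', hE', hE', hB.E_add, cj_mul]
  · intro z
    rw [hE', hE', cj_star, hB.E_star]
  · exact (differentiable_const _).clm_comp (hB.E_diff.clm_comp (differentiable_const _))
  · intro t z
    rw [hV', hE', ← cj_mul, ← cj_mul, hB.V_E]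
  · intro y z
    rw [hκ', hE', ← cj_mul, ← cj_mul, hB.κ_E]
  · intro v
    rw [hadj, hJ', LinearIsometryEquiv.apply_symm_apply, hB.J_iso]
  · intro v
    rw [hE', hJ', cj_symm, hB.E_J]
  · intro y v
    rw [hκ', hJ', hJ', cj_symm, hB.κ_J]
  · intro t v
    rw [hV', hJ', hE', hJ', cj_symm, cj_symm, hB.V_J]
  · intro m v hm
    rw [hadj, hE', hJ', Phi_cj, LinearIsometryEquiv.apply_symm_apply]
    exact hB.orth m v hm
  · intro u
    have h1 := (hB.compl (Φ u)).mapL (Φ.symm.toContinuousLinearEquiv : K →L[ℂ] L)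
    have h2 : ∀ m : ℤ, E' (((m : ℝ) * T : ℝ) : ℂ) (J' (ContinuousLinearMap.adjoint J'
        (E' ((-((m : ℝ) * T) : ℝ) : ℂ) u))) = Φ.symm (E (((m : ℝ) * T : ℝ) : ℂ)
        (J (ContinuousLinearMap.adjoint J (E ((-((m : ℝ) * T) : ℝ) : ℂ) (Φ u))))) := by
      intro m
      rw [hadj, hE', hE', hJ', Phi_cj, cj_symm]
    simp_rw [h2]
    exact h1
  · exact (by rw [hE', hE', ← cj_sub]; exact (cj_norm Φ _).trans hB.nE1)
  · exact (by rw [hE', hE', ← cj_sub]; exact (cj_norm Φ _).trans hB.nE2)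
  · exact (by rw [hE', hE', ← cj_sub]; exact (cj_norm Φ _).trans hB.nE3)
  · exact (by rw [hE', hE', ← cj_sub]; exact (cj_norm Φ _).trans hB.nE4)
  · exact hB.pos
  · exact hB.δ_nonneg
  · exact hB.δ_le


/-- the core of `N` is contained in the core of `M` -/
theorem core_le {H : Type} [NormedAddCommGroup H] [InnerProductSpace ℂ H] [CompleteSpace H]
    (M N : VonNeumannAlgebra H) (U : ℝ → H →L[ℂ] H)
    (hNM : ∀ x : H →L[ℂ] H, x ∈ N → x ∈ M) :
    ∀ Z : LR H →L[ℂ] LR H, Z ∈ core N U → Z ∈ core M U := by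
  have hsub : coreGen N U ⊆ coreGen M U := by
    rintro T (⟨y, hy, hT⟩ | ⟨t, hT⟩)
    · exact Or.inl ⟨y, hNM y hy, hT⟩
    · exact Or.inr ⟨t, hT⟩
  intro Z hZ
  have h1 : Z ∈ StarSubalgebra.centralizer ℂ
      ((StarSubalgebra.centralizer ℂ (coreGen N U) : Set (LR H →L[ℂ] LR H))) := hZ
  have h2 : Z ∈ StarSubalgebra.centralizer ℂ
      ((StarSubalgebra.centralizer ℂ (coreGen M U) : Set (LR H →L[ℂ] LR H))) := by
    rw [StarSubalgebra.mem_centralizer_iff] at h1 ⊢
    intro g hg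
    refine h1 g ?_
    have hg' : g ∈ StarSubalgebra.centralizer ℂ (coreGen M U) := hg
    show g ∈ StarSubalgebra.centralizer ℂ (coreGen N U)
    rw [StarSubalgebra.mem_centralizer_iff] at hg' ⊢
    exact fun y hy => hg' y (hsub hy)
  exact h2

theorem κ_core {H : Type} [NormedAddCommGroup H] [InnerProductSpace ℂ H] [CompleteSpace H]
    (M : VonNeumannAlgebra H) (U : ℝ → H →L[ℂ] H)
    (κ : (H →L[ℂ] H) →⋆ₐ[ℂ] (LR H →L[ℂ] LR H)) (hκ : ∀ y : H →L[ℂ] H, IsConst y (κ y))
    (y : H →L[ℂ] H) (hy : y ∈ M) (hyU : ∀ t : ℝ, sgm U t y = y) : κ y ∈ core M U := by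
  have hgen : κ y ∈ coreGen M U := by
    refine Or.inl ⟨y, hy, fun f => ?_⟩
    simp only [hyU]
    exact hκ y f
  have h2 : κ y ∈ StarSubalgebra.centralizer ℂ
      ((StarSubalgebra.centralizer ℂ (coreGen M U) : Set (LR H →L[ℂ] LR H))) := by
    rw [StarSubalgebra.mem_centralizer_iff]
    intro g hg
    have hg' : g ∈ StarSubalgebra.centralizer ℂ (coreGen M U) := hg
    rw [StarSubalgebra.mem_centralizer_iff] at hg'
    have h3 := hg' (κ y) hgen
    refine ⟨h3.1.symm, ?_⟩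
    have h4 := congrArg star h3.2
    simp only [star_mul, star_star] at h4
    exact h4
  exact h2

/-- existence of the standing data on `L²(ℝ; H)` -/
theorem dat (hE1 : S_E1) (hE2 : S_E2) (hE2b : S_E2b) (hE3 : S_E3) (hE11 : S_E11)
    (hfin : S_FIN0) (h6 : S_Q6) (h7 : S_Q7) (h8 : S_Q8) (h9 : S_Q9)
    (H : Type) [NormedAddCommGroup H] [InnerProductSpace ℂ H] [CompleteSpace H]
    (M N : VonNeumannAlgebra H) (ξ : H) (U : ℝ → H →L[ℂ] H) (hstd : Std M N ξ U)
    (hfac : IsFac (core N U)) :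
    ∃ (κ : (H →L[ℂ] H) →⋆ₐ[ℂ] (LR H →L[ℂ] LR H)) (V : ℝ → LR H →L[ℂ] LR H)
      (J : ℕ → H →L[ℂ] LR H) (E : ℕ → ℂ → LR H →L[ℂ] LR H) (T δ : ℕ → ℝ),
      Dat M N ξ U κ V (core N U) (core M U) J E T δ := by
  obtain ⟨κ, hκ⟩ := hE1 H
  obtain ⟨R, hR, hR0, hRadd, hRstar, hRc⟩ := hE3 H
  obtain ⟨Φ, hΦc, hΦs, hΦm⟩ := h6 H
  have hU := hstd.modular
  -- characters
  have hch : ∀ t : ℝ, ∃ S : LR H →L[ℂ] LR H,
      IsMulOp (fun w : ℝ => Complex.exp (2 * Real.pi * I * t * w)) S ∧ ‖S‖ ≤ 1 := by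
    intro t
    refine hE2 H _ 1 (by fun_prop) fun s => le_of_eq ?_
    have : (2 * Real.pi * I * t * s : ℂ) = ((2 * Real.pi * t * s : ℝ) : ℂ) * I := by
      push_cast; ring
    rw [this, Complex.norm_exp_ofReal_mul_I]
  choose e he hen using hch
  have hV : ∀ (t : ℝ) (f : LR H), Φ ((R (-t) * κ (U t)) f) = (e t * κ (U t)) (Φ f) := by
    intro t f
    have h5 := hΦs (-t) (R (-t)) (e t) (hR (-t)) (by simpa using he t) (κ (U t) f)
    show Φ (R (-t) (κ (U t) f)) = e t (κ (U t) (Φ f))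
    rw [h5, hΦc (U t) (κ (U t)) (hκ (U t)) f]
  -- widths
  let W : ℕ → ℝ := fun k => (1 / 10 : ℝ) / 2 ^ k
  have hW : ∀ k, 0 < W k := fun k => by positivity
  have hWle : ∀ k, W k ≤ 1 / 10 := fun k => by
    refine div_le_self (by norm_num) ?_
    exact one_le_pow₀ (by norm_num)
  have hWexp : ∀ k, Real.exp (2 * Real.pi * W k) - 1 ≤ 1 := by
    intro k
    have hpi := Real.pi_lt_d2
    have h1 : 2 * Real.pi * W k ≤ 0.63 := by
      have := hWle k
      have h3 := hW k
      nlinarith [Real.pi_pos]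
    have h2 : Real.exp (2 * Real.pi * W k) ≤ Real.exp 0.63 := Real.exp_le_exp.2 h1
    have h3 : Real.exp 0.63 ≤ 2 := by
      have h4 : Real.exp (0.63 : ℝ) ≤ Real.exp (Real.log 2) := by
        apply Real.exp_le_exp.2
        have := Real.log_two_gt_d9
        linarith
      rwa [Real.exp_log (by norm_num)] at h4
    linarith
  choose JF EF hbox hmul hζ using fun k : ℕ => h7 H M ξ U hU κ hκ e he (W k) (hW k) (hWexp k)
  have htr := fun k : ℕ => e8x H (LR H) (LR H) U κ (fun t => e t * κ (U t)) (JF k) (EF k)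
    (1 / W k) (Real.exp (2 * Real.pi * W k) - 1) (hbox k) κ (fun t => R (-t) * κ (U t)) Φ
    (fun y f => hΦc y (κ y) (hκ y) f) hV
  choose J E hJ hE hB using htr
  have hmem : ∀ k, E k 0 ∈ core N U := fun k =>
    hfin H N U R hR Φ hΦs (W k) (EF k 0) (E k 0) (hW k) (hmul k) (hE k 0)
  have hζ' : ∀ k, Φ (E k (-I / 2) (J k ξ)) = EF k (-I / 2) (JF k ξ) := fun k => by
    rw [hE, hJ]
  -- characters: group law
  obtain ⟨u1, u2, u3, u4⟩ := hE2b H
  have he0 : e 0 = 1 := by
    refine u1 (fun _ => (1 : ℂ)) (e 0) 1 ?_ ?_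
    · have := he 0
      intro f
      filter_upwards [this f] with s hs
      rw [hs]; simp
    · intro f
      filter_upwards with s
      simp
  have headd : ∀ s t, e (s + t) = e s * e t := by
    intro s t
    refine u1 _ (e (s + t)) (e s * e t) (he (s + t)) ?_
    have h := u3 _ _ (e s) (e t) (he s) (he t)
    intro f
    filter_upwards [h f] with w hw
    rw [hw]
    congr 1
    rw [← Complex.exp_add]
    congr 1
    push_cast
    ring
  have hestar : ∀ t, star (e t) = e (-t) := by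
    intro t
    refine u2 _ (e t) (e (-t)) (he t) ?_
    intro f
    filter_upwards [he (-t) f] with w hw
    rw [hw]
    congr 1
    rw [← Complex.exp_conj]
    congr 1
    simp only [map_mul, Complex.conj_ofReal, Complex.conj_I, map_ofNat]
    push_cast
    ring
  have hΦe : ∀ (t : ℝ) (f : LR H), Φ (e t f) = R t (Φ f) := fun t f =>
    hΦm t (R t) (e t) (hR t) (he t) f
  refine ⟨κ, fun t => R (-t) * κ (U t), J, E, fun k => 1 / W k,
    fun k => Real.exp (2 * Real.pi * W k) - 1, ?_⟩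
  refine ⟨hstd, core_le M N U hstd.le, ?_, ?_, ?_, hfac, ?_⟩
  · intro Z hZ
    exact hE11 H M M ξ U hU (fun y hy => hy) hU.mem κ hκ R hR hR0 hRadd hRstar Z hZ
  · intro Z hZ
    exact hE11 H M N ξ U hU hstd.le hstd.inv κ hκ R hR hR0 hRadd hRstar Z hZ
  · intro y hy hyU
    exact κ_core M U κ hκ y hy hyU
  refine ⟨hB, hmem, ?_, ?_⟩
  · have h1 : Tendsto W atTop (𝓝 0) := by
      have h2 : Tendsto (fun k : ℕ => (1 / 10 : ℝ) * (1 / 2) ^ k) atTop (𝓝 0) := by
        have := (tendsto_pow_atTop_nhds_zero_of_lt_one (r := (1 / 2 : ℝ)) (by norm_num)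
          (by norm_num)).const_mul (1 / 10 : ℝ)
        simpa using this
      refine h2.congr fun k => ?_
      show (1 / 10 : ℝ) * (1 / 2) ^ k = (1 / 10 : ℝ) / 2 ^ k
      rw [one_div_pow]; ring
    have h3 : Tendsto (fun k => Real.exp (2 * Real.pi * W k) - 1) atTop
        (𝓝 (Real.exp (2 * Real.pi * 0) - 1)) := by
      refine Tendsto.sub_const ?_ 1
      exact (Real.continuous_exp.tendsto _).comp (h1.const_mul _)
    simpa using h3
  · intro k l
    have hWkl : W k = ((2 ^ l : ℕ) : ℝ) * W (k + l) := by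
      show (1 / 10 : ℝ) / 2 ^ k = ((2 ^ l : ℕ) : ℝ) * ((1 / 10 : ℝ) / 2 ^ (k + l))
      push_cast
      rw [pow_add]
      field_simp
    obtain ⟨g1, g2, g3, g4, g5, g6, g7, g8, g9⟩ := h8 H ξ hstd.unit R hR hR0 hRadd hRstar (W k)
      (W (k + l)) (2 ^ l) (hW _) (by positivity) hWkl (hWexp k) (EF k 0) (EF (k + l) 0)
      (EF k (-I / 2) (JF k ξ)) (EF (k + l) (-I / 2) (JF (k + l) ξ)) (hmul k) (hmul (k + l))
      (hζ k) (hζ (k + l))
    -- transport
    have hq : ∀ (j : ℕ) (f : LR H),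
        Φ ((e ((j : ℝ) * W (k + l)) * E (k + l) 0 * star (e ((j : ℝ) * W (k + l)))) f) =
        (R ((j : ℝ) * W (k + l)) * EF (k + l) 0 * star (R ((j : ℝ) * W (k + l)))) (Φ f) := by
      intro j f
      rw [hestar, hRstar]
      show Φ (e _ (E (k + l) 0 (e _ f))) = R _ (EF (k + l) 0 (R _ (Φ f)))
      rw [hΦe, hE, hΦe]
    have hn : ∀ f : LR H, ‖f‖ = ‖Φ f‖ := fun f => (LinearIsometryEquiv.norm_map Φ f).symm
    refine ⟨fun j => e ((j : ℝ) * W (k + l)), fun j => (Real.sqrt ((2 ^ l : ℕ) : ℝ))⁻¹ *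
      Real.exp (Real.pi * ((j : ℝ) * W (k + l))), ?_, ?_⟩
    · refine ⟨by positivity, ?_, ?_, ?_, ?_, ?_, ?_, ?_, ?_, ?_, ?_, ?_, ?_, ?_, ?_, ?_⟩
      · show e (((0 : ℕ) : ℝ) * W (k + l)) = 1
        rw [Nat.cast_zero, zero_mul, he0]
      · intro i j
        show e (((i + j : ℕ) : ℝ) * W (k + l)) = e _ * e _
        rw [← headd]
        congr 1
        push_cast
        ring
      · intro j
        show star (e _) * e _ = 1
        rw [hestar, ← headd, neg_add_cancel, he0]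
      · intro j
        show e _ * star (e _) = 1
        rw [hestar, ← headd, add_neg_cancel, he0]
      · intro j S hS
        refine ⟨h9 H M U e he _ S hS.1, ?_⟩
        intro Y hY
        have hY' := h9 H N U e he (-((j : ℝ) * W (k + l))) Y hY
        have hc := hS.2 _ hY'
        rw [hestar, neg_neg] at hc
        show Y * (e _ * S * star (e _)) = e _ * S * star (e _) * Y
        rw [hestar]
        have a1 : e ((j : ℝ) * W (k + l)) * e (-((j : ℝ) * W (k + l))) = 1 := by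
          rw [← headd, add_neg_cancel, he0]
        have a2 : e (-((j : ℝ) * W (k + l))) * e ((j : ℝ) * W (k + l)) = 1 := by
          rw [← headd, neg_add_cancel, he0]
        calc Y * (e ((j : ℝ) * W (k + l)) * S * e (-((j : ℝ) * W (k + l))))
            = (e ((j : ℝ) * W (k + l)) * e (-((j : ℝ) * W (k + l)))) *
              (Y * (e ((j : ℝ) * W (k + l)) * S * e (-((j : ℝ) * W (k + l))))) := by
              rw [a1, one_mul]
          _ = e ((j : ℝ) * W (k + l)) * ((e (-((j : ℝ) * W (k + l))) * Y *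
              e ((j : ℝ) * W (k + l))) * S) * e (-((j : ℝ) * W (k + l))) := by noncomm_ring
          _ = e ((j : ℝ) * W (k + l)) * (S * (e (-((j : ℝ) * W (k + l))) * Y *
              e ((j : ℝ) * W (k + l)))) * e (-((j : ℝ) * W (k + l))) := by rw [hc]
          _ = e ((j : ℝ) * W (k + l)) * S * e (-((j : ℝ) * W (k + l))) * Y *
              (e ((j : ℝ) * W (k + l)) * e (-((j : ℝ) * W (k + l)))) := by noncomm_ring
          _ = e ((j : ℝ) * W (k + l)) * S * e (-((j : ℝ) * W (k + l))) * Y := by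
              rw [a1, mul_one]
      · intro j
        exact h9 H N U e he _ _ (hmem (k + l))
      · intro j hj
        ext1 f
        apply Φ.injective
        show Φ (E k 0 ((e _ * E (k + l) 0 * star (e _)) f)) = _
        rw [hE, hq]
        have := congrArg (fun Z : LR H →L[ℂ] LR H => Z (Φ f)) (g1 j hj)
        exact this
      · intro i j hi hj hij
        ext1 f
        apply Φ.injective
        show Φ ((e _ * E (k + l) 0 * star (e _)) ((e _ * E (k + l) 0 * star (e _)) f)) = _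
        rw [hq, hq]
        have := congrArg (fun Z : LR H →L[ℂ] LR H => Z (Φ f)) (g2 i j hi hj hij)
        refine this.trans ?_
        simp
      · apply Φ.injective
        rw [map_sum, hζ']
        refine g3.trans (Finset.sum_congr rfl fun j _ => ?_)
        rw [hq, hζ']
      · intro j hj
        exact g4 j hj
      · intro j hj
        apply Φ.injective
        rw [hq, hζ', map_smul]
        show _ = _ • Φ (e _ _)
        rw [hΦe, hζ']
        exact g5 j hj
      · rw [hn, hζ']; exact g6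
      · rw [hn, hζ']; exact g7
      · rw [hn, hζ']; exact g8
      · rw [hn, hζ']; exact g9
    · intro j y
      exact u4 _ y (e _) (κ y) (he _) (hκ y)

end

end Pool.Agent.W662.CB
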