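import Mathlib

set_option autoImplicit false

open MeasureTheory Filter Topology Complex
open scoped InnerProductSpace ENNReal

namespace Pool.Agent.W662.CB

noncomputable section

variable {H : Type} [NormedAddCommGroup H] [InnerProductSpace ℂ H] [CompleteSpace H]

/-- The vector state `φ(x) = ⟨ξ, x ξ⟩`. -/
def vst (ξ : H) (x : H →L[ℂ] H) : ℂ := ⟪ξ, x ξ⟫_ℂ

/-- `ξ` is cyclic for `M`. -/
def IsCyclic (M : VonNeumannAlgebra H) (ξ : H) : Prop :=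
  Dense {v : H | ∃ x : H →L[ℂ] H, x ∈ M ∧ x ξ = v}

/-- `ξ` is separating for `M`. -/
def IsSeparating (M : VonNeumannAlgebra H) (ξ : H) : Prop :=
  ∀ x : H →L[ℂ] H, x ∈ M → x ξ = 0 → x = 0

/-- `σ_t(x) = U_t x U_t^*`. -/
def sgm (U : ℝ → H →L[ℂ] H) (t : ℝ) (x : H →L[ℂ] H) : H →L[ℂ] H := U t * x * star (U t)

/-- `t ↦ σ_t = Ad U_t` is the modular automorphism group of the vector state `φ = ω_ξ` on `M`
(`U_t = Δ^{it}`): `U` is a strongly continuous one-parameter group of unitaries fixing `ξ`,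
`σ_t` leaves `M` invariant and `φ` satisfies the modular (KMS) condition. -/
structure IsModular (M : VonNeumannAlgebra H) (ξ : H) (U : ℝ → H →L[ℂ] H) : Prop where
  zero : U 0 = 1
  add : ∀ s t : ℝ, U (s + t) = U s * U t
  star_eq : ∀ t : ℝ, star (U t) = U (-t)
  cont : ∀ v : H, Continuous fun t : ℝ => U t v
  fix : ∀ t : ℝ, U t ξ = ξ
  mem : ∀ (t : ℝ) (x : H →L[ℂ] H), x ∈ M → sgm U t x ∈ M
  kms : ∀ a b : H →L[ℂ] H, a ∈ M → b ∈ M → ∃ F : ℂ → ℂ,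
    ContinuousOn F {z : ℂ | 0 ≤ z.im ∧ z.im ≤ 1} ∧
    DifferentiableOn ℂ F {z : ℂ | 0 < z.im ∧ z.im < 1} ∧
    (∃ C : ℝ, ∀ z : ℂ, 0 ≤ z.im → z.im ≤ 1 → ‖F z‖ ≤ C) ∧
    ∀ t : ℝ, F t = vst ξ (sgm U t a * b) ∧ F (t + I) = vst ξ (b * sgm U t a)

/-- `E` is a conditional expectation of `M` onto `N`. -/
structure IsCondExp (M N : VonNeumannAlgebra H) (E : (H →L[ℂ] H) → (H →L[ℂ] H)) : Prop where
  mem : ∀ x : H →L[ℂ] H, x ∈ M → E x ∈ N
  proj : ∀ x : H →L[ℂ] H, x ∈ N → E x = x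
  add : ∀ x y : H →L[ℂ] H, x ∈ M → y ∈ M → E (x + y) = E x + E y
  smul : ∀ (c : ℂ) (x : H →L[ℂ] H), x ∈ M → E (c • x) = c • E x
  star_eq : ∀ x : H →L[ℂ] H, x ∈ M → E (star x) = star (E x)
  pos : ∀ x : H →L[ℂ] H, x ∈ M → 0 ≤ x → 0 ≤ E x
  left : ∀ a x : H →L[ℂ] H, a ∈ N → x ∈ M → E (a * x) = a * E x
  right : ∀ a x : H →L[ℂ] H, a ∈ N → x ∈ M → E (x * a) = E x * a

/-- The norm of the functional `aφ - φa` on `M`, where `aφ = φ(· a)`, `φa = φ(a ·)`. -/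
def commNorm (M : VonNeumannAlgebra H) (ξ : H) (a : H →L[ℂ] H) : ℝ :=
  sSup {r : ℝ | ∃ x : H →L[ℂ] H, x ∈ M ∧ ‖x‖ ≤ 1 ∧ r = ‖vst ξ (x * a) - vst ξ (a * x)‖}

/-- The relative bicentralizer `B(N ⊂ M, φ)`: all `x ∈ M` with `a_n x - x a_n → 0` *-strongly for
every bounded sequence `(a_n)` in `N` with `‖a_n φ - φ a_n‖ → 0`. -/
def relBicentralizer (N M : VonNeumannAlgebra H) (ξ : H) : Set (H →L[ℂ] H) :=
  {x | x ∈ M ∧ ∀ a : ℕ → H →L[ℂ] H, (∀ n, a n ∈ N) → (∃ C : ℝ, ∀ n, ‖a n‖ ≤ C) →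
    Tendsto (fun n => commNorm M ξ (a n)) atTop (𝓝 0) →
    ∀ v : H, Tendsto (fun n => (a n * x - x * a n) v) atTop (𝓝 0) ∧
      Tendsto (fun n => star (a n * x - x * a n) v) atTop (𝓝 0)}

/-- `L²(ℝ; H)`. -/
abbrev LR (H : Type) [NormedAddCommGroup H] [InnerProductSpace ℂ H] [CompleteSpace H] : Type :=
  Lp H 2 (volume : Measure ℝ)

/-- The generators of the continuous core: `(π_σ(x) f)(s) = σ_{-s}(x) f(s)` for `x ∈ M`, and the
translations `(λ(t) f)(s) = f(s - t)`. -/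
def coreGen (M : VonNeumannAlgebra H) (U : ℝ → H →L[ℂ] H) : Set (LR H →L[ℂ] LR H) :=
  {T | ∃ x : H →L[ℂ] H, x ∈ M ∧
    ∀ f : LR H, (T f : ℝ → H) =ᵐ[volume] fun s => sgm U (-s) x (f s)} ∪
  {T | ∃ t : ℝ, ∀ f : LR H, (T f : ℝ → H) =ᵐ[volume] fun s => f (s - t)}

/-- The von Neumann algebra generated by a set of operators: the double commutant of `S ∪ S^*`. -/
def vnGen {K : Type} [NormedAddCommGroup K] [InnerProductSpace ℂ K] [CompleteSpace K]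
    (S : Set (K →L[ℂ] K)) : VonNeumannAlgebra K where
  __ := StarSubalgebra.centralizer ℂ ((StarSubalgebra.centralizer ℂ S : Set (K →L[ℂ] K)))
  centralizer_centralizer' := Set.centralizer_centralizer_centralizer _

/-- The continuous core `c(M) = M ⋊_σ ℝ` on `L²(ℝ; H)`. -/
def core (M : VonNeumannAlgebra H) (U : ℝ → H →L[ℂ] H) : VonNeumannAlgebra (LR H) :=
  vnGen (coreGen M U)

/-- The inclusion of the cores `c(N) ⊂ c(M)` is irreducible. -/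
def CoreIrreducible (N M : VonNeumannAlgebra H) (U : ℝ → H →L[ℂ] H) : Prop :=
  ∀ T : LR H →L[ℂ] LR H, T ∈ core M U → (∀ S : LR H →L[ℂ] LR H, S ∈ core N U → S * T = T * S) →
    ∃ c : ℂ, T = c • (1 : LR H →L[ℂ] LR H)

end

end Pool.Agent.W662.CB
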